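import Pool.Agent.TH6.PF.PNear

set_option autoImplicit false

/-! For every ring `R` and every group `G`, `√2` is the exact critical distance from the identity
(measured by the norm of the support pattern) for classes of `K₁(RG)`: at smaller distance all
classes are products of binomial units `1 + r g`, which are units of `R` if `G` is torsion-free and
`R` has no zero divisors, and every class is represented at distance at most `√2`. -/

namespace Pool.Agent.Results.MP_c052b4_al.DistanceRootTwo

open TH57.Thr TH6.PF Matrix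

theorem result (R : Type) [Ring R] (G : Type) [Group G] :
    (∀ (n : ℕ) (A : (Matrix (Fin n) (Fin n) (MonoidAlgebra R G))ˣ) (c : ℝ), c ^ 2 < 2 →
      ThinLE (A.val - 1) c →
      ∃ m : ℕ, Units.map (stm (R := MonoidAlgebra R G) (Fin m)) A
        ∈ commutator (Matrix (Fin n ⊕ Fin m) (Fin n ⊕ Fin m) (MonoidAlgebra R G))ˣ ⊔
          Subgroup.closure {x | ∃ (i : Fin n ⊕ Fin m), ∃ u ∈ binom R G,
            x = Units.map (dgm i) u}) ∧
    (∀ (n : ℕ) (A : (Matrix (Fin n) (Fin n) (MonoidAlgebra R G))ˣ),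
      ∃ (m : ℕ) (C : (Matrix (Fin n ⊕ Fin m) (Fin n ⊕ Fin m) (MonoidAlgebra R G))ˣ),
        C ∈ commutator (Matrix (Fin n ⊕ Fin m) (Fin n ⊕ Fin m) (MonoidAlgebra R G))ˣ ∧
        ThinLE (fromBlocks A.val 0 0 1 * C.val - 1) (Real.sqrt 2)) ∧
    (IsDomain R → (∀ g : G, ∀ k : ℕ, 0 < k → g ^ k = 1 → g = 1) →
      ∀ u ∈ binom R G, ∃ s : Rˣ, u.val = MonoidAlgebra.single 1 s.val) := by
  refine ⟨fun n A c hc hA => near_thin n A c hc hA, fun n A => thin_dist_fin A, ?_⟩
  intro hR htf u hu
  exact binom_domain htf u hu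

end Pool.Agent.Results.MP_c052b4_al.DistanceRootTwo
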