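import Pool.Agent.TH254.DF.Double

/-!
Matrices over group rings which transport a positive hermitian form over `R[H]` to a form over
`R[H']`.

Let `R` be a ring with involution and `τ : R → ℤ` additive (for instance `R = ℤ`, the integers of
a totally real or CM field with the trace, an order in a definite quaternion algebra, or a group
ring over one of these). Let `C` be a hermitian matrix over `R[G]` with `τ ((x C x^*)_1) > 0` for
all nonzero rows `x`, whose entries lie in `R[H]`.

* Idempotent matrices which are self-adjoint for `C` have their entries in `R[H]`.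
* If `A` is invertible and `A C A^*` has its entries in `R[H']`, then for every union `S` of double
  cosets `H' g H` the part `A_S` of `A` supported on `S` is `E A = A F` with idempotent matrices
  `E` over `R[H']` and `F` over `R[H]`.
* If `C` and `A C A^*` are matrices over `R`, then `A = (∑ E_g g) W` with orthogonal idempotents
  `E_g` over `R` and `W ∈ GL_n(R)`; for `R = ℤ` one has `A = P D W` with `P, W ∈ GL_n(ℤ)` and a
  diagonal matrix `D` with entries in `G`.

Idea of the proof: in a lattice with a positive form all orthogonal splittings commute, because a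
vector which is not a sum of two orthogonal nonzero vectors lies in one of the two summands of
each of them, and such vectors generate. The splittings used are the restriction of supports to a
set of left cosets of `H`, and the same for `H'`, transported by `A`.
-/

set_option autoImplicit false

namespace Pool.Agent.Results.MP_c052b4_al.FormTransport

open Pool.Agent.TH254.DF

universe u v

theorem result :
    (∀ (R : Type u) [Ring R] [StarRing R] (G : Type v) [Group G] (τ : R →+ ℤ) (n : ℕ)
      (C : Matrix (Fin n) (Fin n) (MonoidAlgebra R G)) (H : Subgroup G),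
      adjT C = C → GPositive τ C → EntriesIn (H : Set G) C →
      -- self-adjoint idempotents
      (∀ p : Matrix (Fin n) (Fin n) (MonoidAlgebra R G), p * p = p → p * C = C * adjT p →
        EntriesIn (H : Set G) p) ∧
      -- invertible matrices which transport `C` to a form over `R[H']`
      (∀ (A : (Matrix (Fin n) (Fin n) (MonoidAlgebra R G))ˣ) (H' : Subgroup G),
        EntriesIn (H' : Set G) (A.val * C * adjT A.val) →
        ∀ S : Set G, (∀ h' ∈ H', ∀ s ∈ S, ∀ h ∈ H, h' * s * h ∈ S) →
          ∃ E F : Matrix (Fin n) (Fin n) (MonoidAlgebra R G), E * E = E ∧ F * F = F ∧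
            EntriesIn (H' : Set G) E ∧ EntriesIn (H : Set G) F ∧
            resM S A.val = E * A.val ∧ resM S A.val = A.val * F)) ∧
    -- constant forms
    (∀ (R : Type u) [Ring R] [StarRing R] (G : Type v) [Group G] (τ : R →+ ℤ) (n : ℕ)
      (C C' : Matrix (Fin n) (Fin n) R), Positive τ C →
      ∀ A : (Matrix (Fin n) (Fin n) (MonoidAlgebra R G))ˣ,
        A.val * const G C * adjT A.val = const G C' →
        ∃ (W : (Matrix (Fin n) (Fin n) R)ˣ) (S : Finset G) (E : G → Matrix (Fin n) (Fin n) R),
          (∀ g, g ∉ S → E g = 0) ∧ (∀ g, E g * E g = E g) ∧ (∀ g k, g ≠ k → E g * E k = 0) ∧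
          ∑ g ∈ S, E g = 1 ∧ ∀ g i j, (A.val i j).coeff g = (E g * W.val) i j) ∧
    -- integral forms
    (∀ (G : Type v) [Group G] (n : ℕ) (C C' : Matrix (Fin n) (Fin n) ℤ),
      (∀ x : Fin n → ℤ, x ≠ 0 → 0 < Matrix.vecMul x C ⬝ᵥ x) →
      ∀ A : (Matrix (Fin n) (Fin n) (MonoidAlgebra ℤ G))ˣ,
        A.val * const G C * adjT A.val = const G C' →
        ∃ (P W : (Matrix (Fin n) (Fin n) ℤ)ˣ) (γ : Fin n → G),
          A.val = const G P.val * Matrix.diagonal (fun j => MonoidAlgebra.single (γ j) 1) *
            const G W.val) := by
  refine ⟨?_, ?_, ?_⟩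
  · intro R _ _ G _ τ n C H hCC hpos hC
    refine ⟨fun p hpp hp => proj_entries hpos hC hpp hp, ?_⟩
    intro A H' hC' S hS
    refine main_double hpos hCC hC A.mul_inv A.inv_mul hC' ?_ ?_
    · intro s hs h hh
      have := hS 1 H'.one_mem s hs h hh
      rwa [one_mul] at this
    · intro h hh s hs
      have := hS h hh s hs 1 H.one_mem
      rwa [mul_one] at this
  · intro R _ _ G _ τ n C C' hC A h
    exact main A hC h
  · intro G _ n C C' hC A h
    refine main_int (τ := AddMonoidHom.id ℤ) A ?_ h
    intro x hx
    exact hC x hx

end Pool.Agent.Results.MP_c052b4_al.FormTransport
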