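import Pool.Agent.TH797.DG
import Pool.Agent.H71R2.Idem.Kap

/-!
# An interval gap theorem for the traces of idempotents of complex group rings
-/

set_option autoImplicit false

namespace Pool.Agent.Results.MP_c052b4_al.IdempotentIntervalGap

open MonoidAlgebra Pool.Agent.TH797.DG

universe v

section
variable {G H Γ : Type v} [Group G] [Group H] [Group Γ]

lemma coeff_one_inl (f : MonoidAlgebra ℂ G) :
    (mapDomainRingHom ℂ (MonoidHom.inl G H) f).coeff 1 = f.coeff 1 := by
  have h := coeff_one_mul_map (k := ℂ) (MonoidHom.id (G × H)) Function.injective_id f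
    (1 : MonoidAlgebra ℂ H)
  rw [RingHom.map_one, mul_one] at h
  have h1 : (1 : MonoidAlgebra ℂ H).coeff 1 = 1 := by simp [MonoidAlgebra.one_def]
  rw [h1, mul_one] at h
  exact h

lemma coeff_one_inr (f : MonoidAlgebra ℂ H) :
    (mapDomainRingHom ℂ (MonoidHom.inr G H) f).coeff 1 = f.coeff 1 := by
  have h := coeff_one_mul_map (k := ℂ) (MonoidHom.id (G × H)) Function.injective_id
    (1 : MonoidAlgebra ℂ G) f
  rw [RingHom.map_one, one_mul] at h
  have h1 : (1 : MonoidAlgebra ℂ G).coeff 1 = 1 := by simp [MonoidAlgebra.one_def]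
  rw [h1, one_mul] at h
  exact h

/-- mixing of two idempotents along a third one -/
lemma mix (e : MonoidAlgebra ℂ G) (he : e * e = e) (f : MonoidAlgebra ℂ H) (hf : f * f = f)
    (f' : MonoidAlgebra ℂ Γ) (hf' : f' * f' = f') :
    ∃ x : MonoidAlgebra ℂ (G × (H × Γ)), x * x = x ∧
      x.coeff 1 = e.coeff 1 * f.coeff 1 + (1 - e.coeff 1) * f'.coeff 1 := by
  set A := mapDomainRingHom ℂ ((MonoidHom.id (G × (H × Γ))).comp (MonoidHom.inl G (H × Γ))) with hA
  set B := mapDomainRingHom ℂ ((MonoidHom.id (G × (H × Γ))).comp (MonoidHom.inr G (H × Γ))) with hB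
  set a := mapDomainRingHom ℂ (MonoidHom.inl H Γ) f with ha
  set b := mapDomainRingHom ℂ (MonoidHom.inr H Γ) f' with hb
  have haa : a * a = a := by rw [ha, ← map_mul, hf]
  have hbb : b * b = b := by rw [hb, ← map_mul, hf']
  have hee : (1 - e) * (1 - e) = 1 - e := by
    rw [mul_sub, mul_one, sub_mul, one_mul, he]
    abel
  have he0 : e * (1 - e) = 0 := by rw [mul_sub, mul_one, he, sub_self]
  have he0' : (1 - e) * e = 0 := by rw [sub_mul, one_mul, he, sub_self]
  have comm : ∀ (x : MonoidAlgebra ℂ G) (y : MonoidAlgebra ℂ (H × Γ)), A x * B y = B y * A x :=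
    fun x y => comm_map (MonoidHom.id (G × (H × Γ))) x y
  have prod : ∀ (x x' : MonoidAlgebra ℂ G) (y y' : MonoidAlgebra ℂ (H × Γ)),
      (A x * B y) * (A x' * B y') = A (x * x') * B (y * y') := by
    intro x x' y y'
    rw [mul_assoc, ← mul_assoc (B y), ← comm x' y, map_mul, map_mul]
    simp only [mul_assoc]
  refine ⟨A e * B a + A (1 - e) * B b, ?_, ?_⟩
  · rw [mul_add, add_mul, add_mul, prod, prod, prod, prod, he, hee, haa, hbb, he0, he0', map_zero,
      zero_mul, zero_mul, add_zero, zero_add]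
  · rw [coeff_add, Finsupp.add_apply,
      coeff_one_mul_map (MonoidHom.id (G × (H × Γ))) Function.injective_id,
      coeff_one_mul_map (MonoidHom.id (G × (H × Γ))) Function.injective_id, ha, hb,
      coeff_one_inl, coeff_one_inr]
    congr 2
    show (1 - e).coeff 1 = 1 - e.coeff 1
    have : (1 - e).coeff 1 = (1 : MonoidAlgebra ℂ G).coeff 1 - e.coeff 1 := rfl
    rw [this]
    congr 1
    simp [MonoidAlgebra.one_def]

end

/-- a set of real numbers in `[0,1]` containing `0`, `1`, `t ∈ (0,1)`, and closed under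
`(x, y) ↦ t x + (1 - t) y`, meets every open subinterval of `[0,1]` -/
lemma dense_of_mix (T : Set ℝ) (h0 : (0 : ℝ) ∈ T) (h1 : (1 : ℝ) ∈ T) (t : ℝ) (ht0 : 0 < t)
    (ht1 : t < 1) (hmix : ∀ x ∈ T, ∀ y ∈ T, t * x + (1 - t) * y ∈ T)
    (a b : ℝ) (ha : 0 ≤ a) (hab : a < b) (hb : b ≤ 1) : ∃ x ∈ T, a < x ∧ x < b := by
  by_contra hne
  push Not at hne
  set SL : Set ℝ := {x | x ∈ T ∧ x ≤ a} with hSL
  set SU : Set ℝ := {x | x ∈ T ∧ b ≤ x} with hSU
  have hL0 : (0 : ℝ) ∈ SL := ⟨h0, ha⟩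
  have hU0 : (1 : ℝ) ∈ SU := ⟨h1, hb⟩
  have hLb : BddAbove SL := ⟨a, fun x hx => hx.2⟩
  have hUb : BddBelow SU := ⟨b, fun x hx => hx.2⟩
  set L := sSup SL with hL
  set U := sInf SU with hU
  have hLa : L ≤ a := csSup_le ⟨0, hL0⟩ fun x hx => hx.2
  have hUb' : b ≤ U := le_csInf ⟨1, hU0⟩ fun x hx => hx.2
  have hgap : ∀ x ∈ T, x ≤ L ∨ U ≤ x := by
    intro x hx
    rcases le_or_gt x a with h | h
    · exact Or.inl (le_csSup hLb ⟨hx, h⟩)
    · exact Or.inr (csInf_le hUb ⟨hx, hne x hx h⟩)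
  have hLU : 0 < U - L := by linarith
  set δ := min t (1 - t) * (U - L) / 2 with hδ
  have hm : 0 < min t (1 - t) := lt_min ht0 (by linarith)
  have hδ0 : 0 < δ := by positivity
  obtain ⟨x, hx, hxL⟩ := exists_lt_of_lt_csSup ⟨0, hL0⟩ (show L - δ < L by linarith)
  obtain ⟨y, hy, hyU⟩ := exists_lt_of_csInf_lt ⟨1, hU0⟩ (show U < U + δ by linarith)
  have hxL' : x ≤ L := le_csSup hLb hx
  have hyU' : U ≤ y := csInf_le hUb hy
  have hmem := hmix y hy.1 x hx.1
  have hmt : min t (1 - t) ≤ t := min_le_left _ _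
  have hmt' : min t (1 - t) ≤ 1 - t := min_le_right _ _
  have h2δ : 2 * δ = min t (1 - t) * (U - L) := by rw [hδ]; ring
  have hA : 2 * δ ≤ t * (U - L) := by
    rw [h2δ]
    exact mul_le_mul_of_nonneg_right hmt hLU.le
  have hB : 2 * δ ≤ (1 - t) * (U - L) := by
    rw [h2δ]
    exact mul_le_mul_of_nonneg_right hmt' hLU.le
  have hlow : L < t * y + (1 - t) * x := by
    have h1 : t * U ≤ t * y := mul_le_mul_of_nonneg_left hyU' ht0.le
    have h2 : (1 - t) * (L - δ) ≤ (1 - t) * x :=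
      mul_le_mul_of_nonneg_left hxL.le (by linarith)
    nlinarith
  have hupp : t * y + (1 - t) * x < U := by
    have h1 : t * y ≤ t * (U + δ) := mul_le_mul_of_nonneg_left hyU.le ht0.le
    have h2 : (1 - t) * x ≤ (1 - t) * L := mul_le_mul_of_nonneg_left hxL' (by linarith)
    nlinarith
  rcases hgap _ hmem with h | h <;> linarith

/-- Let `𝒞` be a class of groups closed under products of two groups, for instance the class of
torsion-free groups. For all groups `G` of `𝒞` the ring `ℂG` has no idempotents except `0` and `1`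
if (and only if) there is one open interval `(a, b)` in `[0, 1]` such that the trace (the
coefficient of the identity) of no idempotent of `ℂG`, `G` in `𝒞`, has its real part in it. -/
theorem result (𝒞 : ∀ (G : Type v) [Group G], Prop)
    (h𝒞 : ∀ (G H : Type v) [Group G] [Group H], 𝒞 G → 𝒞 H → 𝒞 (G × H)) :
    (∀ (G : Type v) [Group G], 𝒞 G → ∀ e : MonoidAlgebra ℂ G, e * e = e → e = 0 ∨ e = 1) ↔
      ∃ a b : ℝ, 0 ≤ a ∧ a < b ∧ b ≤ 1 ∧ ∀ (G : Type v) [Group G], 𝒞 G →
        ∀ e : MonoidAlgebra ℂ G, e * e = e →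
          ¬ (a < (e.coeff 1).re ∧ (e.coeff 1).re < b) := by
  classical
  constructor
  · intro h
    refine ⟨0, 1, le_rfl, one_pos, le_rfl, fun G _ hG e he hlt => ?_⟩
    rcases h G hG e he with rfl | rfl
    · simp at hlt
    · simp [MonoidAlgebra.one_def] at hlt
  · rintro ⟨a, b, ha, hab, hb, h⟩ G _ hG e he
    by_contra hne
    push Not at hne
    obtain ⟨hne0, hne1⟩ := hne
    have hee : (1 - e) * (1 - e) = 1 - e := by
      rw [mul_sub, mul_one, sub_mul, one_mul, he]
      abel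
    have hc1 : (1 - e).coeff 1 = 1 - e.coeff 1 := by
      have : (1 - e).coeff 1 = (1 : MonoidAlgebra ℂ G).coeff 1 - e.coeff 1 := rfl
      rw [this]
      congr 1
      simp [MonoidAlgebra.one_def]
    have hK := Pool.Agent.H71R2.Idem.Kap.coeff_one_re_nonneg e he
    have hK' := Pool.Agent.H71R2.Idem.Kap.coeff_one_re_nonneg (1 - e) hee
    set t := (e.coeff 1).re with ht
    have hz : e.coeff 1 = (t : ℂ) := Complex.ext (by simp [ht]) (by simp [hK.2])
    have ht0 : 0 < t := by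
      rcases hK.1.lt_or_eq with h' | h'
      · exact h'
      · exfalso
        apply hne0
        apply Pool.Agent.H71R2.Idem.Kap.eq_zero_of_coeff_one e he
        rw [hz, ← h', Complex.ofReal_zero]
    have ht1 : t < 1 := by
      have h1 : ((1 - e).coeff 1).re = 1 - t := by rw [hc1, hz]; simp
      rw [h1] at hK'
      rcases hK'.1.lt_or_eq with h' | h'
      · linarith
      · exfalso
        apply hne1
        have : 1 - e = 0 := by
          apply Pool.Agent.H71R2.Idem.Kap.eq_zero_of_coeff_one (1 - e) hee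
          rw [hc1, hz, ← Complex.ofReal_one, ← Complex.ofReal_sub, ← h', Complex.ofReal_zero]
        exact (sub_eq_zero.1 this).symm
    set T : Set ℝ := {x | ∃ (H : Type v) (_ : Group H), 𝒞 H ∧ ∃ f : MonoidAlgebra ℂ H,
      f * f = f ∧ f.coeff 1 = (x : ℂ)} with hT
    have hT0 : (0 : ℝ) ∈ T := ⟨G, _, hG, 0, by simp, by simp⟩
    have hT1 : (1 : ℝ) ∈ T := ⟨G, _, hG, 1, by simp, by simp [MonoidAlgebra.one_def]⟩
    have hmix : ∀ x ∈ T, ∀ y ∈ T, t * x + (1 - t) * y ∈ T := by
      rintro x ⟨H, iH, hH, f, hf, hfx⟩ y ⟨H', iH', hH', f', hf', hfy⟩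
      obtain ⟨g, hg, hg1⟩ := mix e he f hf f' hf'
      refine ⟨G × (H × H'), inferInstance, h𝒞 G (H × H') hG (h𝒞 H H' hH hH'), g, hg, ?_⟩
      rw [hg1, hz, hfx, hfy]
      push_cast
      ring
    obtain ⟨x, ⟨H, iH, hH, f, hf, hfx⟩, hxa, hxb⟩ :=
      dense_of_mix T hT0 hT1 t ht0 ht1 hmix a b ha hab hb
    apply h H hH f hf
    rw [hfx, Complex.ofReal_re]
    exact ⟨hxa, hxb⟩

end Pool.Agent.Results.MP_c052b4_al.IdempotentIntervalGap
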