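import Pool.Agent.TH57.TT2.KR4

set_option autoImplicit false

/-! Invertible matrices over group rings of commutative rings in which, in each block, all rows but
one (or all columns but one) have at most two nonzero coefficients. -/

namespace Pool.Agent.Results.MP_c052b4_al.OneLongRow

open TH57.Thr TH57.TT2

/-- The subgroup of `GL_κ(RG)` generated by the commutators, by the diagonal matrices with one
diagonal entry in `U` and the others `1`, and by the invertible matrices with entries in `R`. -/
noncomputable def Gen (R G : Type) [CommRing R] [Group G] (κ : Type) [Fintype κ] [DecidableEq κ]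
    (U : Set (MonoidAlgebra R G)ˣ) : Subgroup (Matrix κ κ (MonoidAlgebra R G))ˣ :=
  Subgroup.closure ({y | ∃ a b, y = a * b * a⁻¹ * b⁻¹} ∪
    {y | ∃ u ∈ U, ∃ i : κ, y.val = Matrix.diagonal (Function.update 1 i u.val)} ∪
    {y | ∃ B : (Matrix κ κ R)ˣ, ∀ i j, y.val i j = MonoidAlgebra.single 1 (B.val i j)})

/-- Some stabilisation `diag(A, 1)` lies in that subgroup. -/
def From (R G : Type) [CommRing R] [Group G] (U : Set (MonoidAlgebra R G)ˣ) (n : ℕ)
    (A : (Matrix (Fin n) (Fin n) (MonoidAlgebra R G))ˣ) : Prop :=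
  ∃ m : ℕ, ∃ B ∈ Gen R G (Fin n ⊕ Fin m) U, B.val = Matrix.fromBlocks A.val 0 0 1

/-- The units given by the group elements. -/
def groupUnits (R G : Type) [CommRing R] [Group G] : Set (MonoidAlgebra R G)ˣ :=
  {u | ∃ g : G, u.val = MonoidAlgebra.single g 1}

theorem HR_le {R G : Type} [CommRing R] [Group G] (κ : Type) [Fintype κ] [DecidableEq κ] :
    HR (MonoidAlgebra.singleOneRingHom : R →+* MonoidAlgebra R G) ⊤ κ
      ≤ Gen R G κ Set.univ := by
  apply sup_le
  · apply sup_le
    · rw [commutator_def, Subgroup.commutator_def, Subgroup.closure_le]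
      rintro _ ⟨a, _, b, _, rfl⟩
      exact Subgroup.subset_closure (Or.inl (Or.inl ⟨a, b, rfl⟩))
    · rw [Subgroup.closure_le]
      rintro _ ⟨i, u, _, rfl⟩
      exact Subgroup.subset_closure (Or.inl (Or.inr ⟨u, Set.mem_univ _, i, rfl⟩))
  · rintro _ ⟨B, rfl⟩
    exact Subgroup.subset_closure (Or.inr ⟨B, fun i j => rfl⟩)

theorem Gen_le {R G : Type} [CommRing R] [Group G] [IsDomain R] [UniqueProds G] (κ : Type)
    [Fintype κ] [DecidableEq κ] : Gen R G κ Set.univ ≤ Gen R G κ (groupUnits R G) := by
  rw [Gen, Subgroup.closure_le]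
  rintro y ((⟨a, b, hab⟩ | ⟨u, _, i, hy⟩) | ⟨B, hB⟩)
  · exact Subgroup.subset_closure (Or.inl (Or.inl ⟨a, b, hab⟩))
  · obtain ⟨r, g, hr⟩ := unit_trivial u
    have h1 : Units.map (dgm i) (gun g : (MonoidAlgebra R G)ˣ)
        ∈ Gen R G κ (groupUnits R G) :=
      Subgroup.subset_closure (Or.inl (Or.inr ⟨gun g, ⟨g, rfl⟩, i, rfl⟩))
    have h2 : Units.map (mpm (κ := κ) (MonoidAlgebra.singleOneRingHom : R →+* MonoidAlgebra R G))
        (Units.map (dgm i) r) ∈ Gen R G κ (groupUnits R G) :=
      Subgroup.subset_closure (Or.inr ⟨Units.map (dgm i) r, fun i j => rfl⟩)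
    have h3 : y = Units.map (mpm (κ := κ)
        (MonoidAlgebra.singleOneRingHom : R →+* MonoidAlgebra R G)) (Units.map (dgm i) r)
        * Units.map (dgm i) (gun g : (MonoidAlgebra R G)ˣ) := by
      apply Units.ext
      rw [Units.val_mul, hy]
      have h4 : (Units.map (mpm (κ := κ)
          (MonoidAlgebra.singleOneRingHom : R →+* MonoidAlgebra R G)) (Units.map (dgm i) r)).val
          = dgm i (MonoidAlgebra.single 1 (r : R) : MonoidAlgebra R G) := mpm_dgm _ i _
      have h5 : (Units.map (dgm i) (gun g : (MonoidAlgebra R G)ˣ)).val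
          = dgm i (MonoidAlgebra.single g 1 : MonoidAlgebra R G) := rfl
      rw [h4, h5, ← map_mul, MonoidAlgebra.single_mul_single, one_mul, mul_one, ← hr]
      rfl
    rw [h3]
    exact mul_mem h2 h1
  · exact Subgroup.subset_closure (Or.inr ⟨B, hB⟩)

/-- `R` is a commutative ring, `G` a group, `A` an invertible matrix over `RG` whose rows and columns
are coloured so that a nonzero entry is in a row and a column of the same colour. Of any two rows of
the same colour one has at most two nonzero coefficients, or: of any two columns of the same colour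
one has at most two nonzero coefficients. Then some stabilisation of `A` is a product of
commutators, of diagonal matrices with one entry a unit of `RG` and the others `1`, and of invertible
matrices over `R`; if `R` is a domain and `G` has unique products, the units may be taken in `G`. -/
theorem result (R G : Type) [CommRing R] [Group G] (n : ℕ)
    (A : (Matrix (Fin n) (Fin n) (MonoidAlgebra R G))ˣ) (c d : Fin n → ℕ)
    (hcd : ∀ i j, A.val i j ≠ 0 → c i = d j)
    (hA : (∀ i i', i ≠ i' → c i = c i' → ∑ j, (A.val i j).coeff.support.card ≤ 2 ∨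
        ∑ j, (A.val i' j).coeff.support.card ≤ 2) ∨
      (∀ j j', j ≠ j' → d j = d j' → ∑ i, (A.val i j).coeff.support.card ≤ 2 ∨
        ∑ i, (A.val i j').coeff.support.card ≤ 2)) :
    From R G Set.univ n A ∧ (IsDomain R → UniqueProds G → From R G (groupUnits R G) n A) := by
  have hmain : From R G Set.univ n A := by
    rcases subsingleton_or_nontrivial R with hR | hR
    · refine ⟨0, 1, one_mem _, ?_⟩
      have : Subsingleton (MonoidAlgebra R G) := ⟨fun x y => by
        ext g; exact Subsingleton.elim _ _⟩
      ext i j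
      exact Subsingleton.elim _ _
    · have hT : TR (MonoidAlgebra.singleOneRingHom : R →+* MonoidAlgebra R G) ⊤ A := by
        rcases hA with hA | hA
        · exact TR_long _ (fun r => rfl) (Fintype.card (Fin n)) (Fin n) rfl A c d hcd hA
        · exact TR_long_col _ (fun r => rfl) A c d hcd hA
      obtain ⟨μ, i1, i2, h⟩ := hT
      obtain ⟨e⟩ : Nonempty (Fin (Fintype.card μ) ≃ μ) := ⟨(Fintype.equivFin μ).symm⟩
      have h1 := HR_re _ _ (Equiv.sumCongr (Equiv.refl (Fin n)) e) _ h
      refine ⟨Fintype.card μ, _, HR_le _ h1, ?_⟩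
      change (Matrix.fromBlocks A.val 0 0 1).submatrix _ _ = _
      ext (i | i) (j | j) <;> simp [Matrix.one_apply]
  refine ⟨hmain, fun h1 h2 => ?_⟩
  obtain ⟨m, B, hB, hBA⟩ := hmain
  exact ⟨m, B, Gen_le _ hB, hBA⟩

end Pool.Agent.Results.MP_c052b4_al.OneLongRow
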